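import Mathlib
import Pool.Agent.MP_23c7c4_al.Defs
import Pool.Agent.MP_23c7c4_al.Graph
import Pool.Agent.MP_23c7c4_al.Clean
import Pool.Agent.MP_23c7c4_al.NotCM

/-!
Problem MP_23c7c4_al, question Q1: the equivalence
`I(G_ω)^n` Cohen-Macaulay if and only if `I(G_ω)^2` Cohen-Macaulay and `I(G_ω)^n` unmixed
fails for a weighted tree on six vertices, over every field and for every `n ≥ 4`.

The graph is the path 1 - 0 - 2 with a whisker at each vertex (0 - 3, 1 - 4, 2 - 5), the two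
path edges have weight 1 and the three whiskers have weight 2.
-/

namespace Pool.Agent.Results.MP_23c7c4_al.Disproof

open Pool.Agent.MP_23c7c4_al

universe u

theorem result : ∃ (G : SimpleGraph (Fin 6)) (ω : G.edgeSet → ℕ+), VeryWellCovered G ∧
    ∀ (K : Type u) [Field K], IsCMIdeal (edgeIdeal K G ω ^ (2 : ℕ)) ∧
      ∀ n : ℕ, 4 ≤ n → IsUnmixed (edgeIdeal K G ω ^ n) ∧ ¬ IsCMIdeal (edgeIdeal K G ω ^ n) := by
  refine ⟨exG, exω, exG_vwc, ?_⟩
  intro K _
  rw [edgeIdeal_exG]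
  exact ⟨I0_sq_cm, fun n hn => ⟨unmixed_I0_pow n, not_cm hn⟩⟩

end Pool.Agent.Results.MP_23c7c4_al.Disproof
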